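import Mathlib
import Pool.Agent.W_2411c4_h59.Defs

/-! Complete bipartite subgraphs and clique-width of graphs with parallel edges. -/

set_option autoImplicit false

namespace Pool.Agent.W2411cw

open Pool.Agent.W2411c4

/-- `u` and `v` are joined by an edge. -/
def AdjM (G : MGraph) (u v : G.V) : Prop := ∃ e, G.ends e = s(u, v)

/-- `G` has a complete bipartite subgraph with `n` vertices on each side. -/
def Biclique (n : ℕ) (G : MGraph) : Prop :=
  ∃ a b : Fin n → G.V, Function.Injective a ∧ Function.Injective b ∧ ∀ i j, AdjM G (a i) (b j)

/-- Expressions with `k` labels: one vertex with a label; disjoint union; adding all edges between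
the vertices with label `i` and the vertices with label `j`; changing the label `i` into `j`. -/
inductive KTerm (k : ℕ) : Type
  /-- one vertex with label `i` -/
  | pt (i : Fin k) : KTerm k
  /-- disjoint union -/
  | union (s t : KTerm k) : KTerm k
  /-- all edges between label `i` and label `j` are added -/
  | join (i j : Fin k) (h : i ≠ j) (t : KTerm k) : KTerm k
  /-- label `i` becomes label `j` -/
  | rel (i j : Fin k) (t : KTerm k) : KTerm k

namespace KTerm

variable {k : ℕ}

/-- the vertices of the graph of an expression -/
def V : KTerm k → Type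
  | pt _ => Unit
  | union s t => s.V ⊕ t.V
  | join _ _ _ t => t.V
  | rel _ _ t => t.V

/-- the labels of the vertices -/
def lab : (t : KTerm k) → t.V → Fin k
  | pt i, _ => i
  | union s _, Sum.inl x => s.lab x
  | union _ t, Sum.inr x => t.lab x
  | join _ _ _ t, x => t.lab x
  | rel i j t, x => if t.lab x = i then j else t.lab x

/-- the adjacency of the graph of an expression -/
def Adj : (t : KTerm k) → t.V → t.V → Prop
  | pt _, _, _ => False
  | union s _, Sum.inl x, Sum.inl y => s.Adj x y
  | union _ t, Sum.inr x, Sum.inr y => t.Adj x y
  | union _ _, Sum.inl _, Sum.inr _ => False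
  | union _ _, Sum.inr _, Sum.inl _ => False
  | join i j _ t, x, y => t.Adj x y ∨ (t.lab x = i ∧ t.lab y = j) ∨ (t.lab x = j ∧ t.lab y = i)
  | rel _ _ t, x, y => t.Adj x y

end KTerm

/-- The underlying simple graph of `G` has clique-width at most `k`: it is empty or it is the graph
of an expression with `k` labels. -/
def CliqueWidthLE (k : ℕ) (G : MGraph) : Prop :=
  IsEmpty G.V ∨ ∃ (t : KTerm k) (f : G.V ≃ t.V), ∀ u v, AdjM G u v ↔ t.Adj (f u) (f v)

end Pool.Agent.W2411cw
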