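import Mathlib
import Pool.Agent.W_2411cw_h59.CwDef
import Pool.Agent.W_2411ls_h59.TreeB

/-! A large complete bipartite subgraph contains `K(t)`. -/

set_option autoImplicit false

namespace Pool.Agent.W2411cw

open Pool.Agent.W2411c4 Pool.Agent.W2411ls

private theorem bick_lt {t i j l : ℕ} (hi : i < t) (hj : j < t) (hl : l < t) :
    (i * t + j) * t + l < t ^ 3 := by
  have h1 : i * t + j + 1 ≤ t * t := by
    have := Nat.mul_le_mul_right t (Nat.succ_le_of_lt hi)
    rw [Nat.succ_mul] at this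
    omega
  have h2 := Nat.mul_le_mul_right t h1
  rw [Nat.add_mul, one_mul] at h2
  have h3 : t ^ 3 = t * t * t := by ring
  omega

private theorem bick_inj1 {t x y x' y' : ℕ} (hy : y < t) (hy' : y' < t)
    (h : x * t + y = x' * t + y') : x = x' ∧ y = y' := by
  have ht : 0 < t := by omega
  have h1 : (x * t + y) / t = x := by
    rw [Nat.mul_comm, Nat.mul_add_div ht, Nat.div_eq_of_lt hy, Nat.add_zero]
  have h2 : (x' * t + y') / t = x' := by
    rw [Nat.mul_comm, Nat.mul_add_div ht, Nat.div_eq_of_lt hy', Nat.add_zero]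
  have h3 : x = x' := by rw [← h1, ← h2, h]
  subst h3
  exact ⟨rfl, by omega⟩

private theorem bick_main {Ω : Type} [Preorder Ω] [Inhabited Ω] {t n : ℕ} {G : MGraph}
    (φ : G.V → Ω) (hn : ∀ m, m < t ^ 3 → m < n)
    (hn' : ∀ m, m < t → m < n) (a b : Fin n → G.V) (ha : Function.Injective a)
    (hb : Function.Injective b) (ε : Fin n → Fin n → G.E)
    (hε : ∀ i j, G.ends (ε i j) = s(a i, b j)) : HasK t (ofM G φ).G := by
  have hne : ∀ i j, a i ≠ b j := by
    intro i j h
    apply G.loopless (ε i j)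
    rw [hε, h]
    exact Sym2.mk_isDiag_iff.2 rfl
  obtain ⟨s, hs⟩ : ∃ s : ℕ → ℕ, ∀ i (hi : i < n), s i = G.cV (a ⟨i, hi⟩) :=
    ⟨fun i => if h : i < n then G.cV (a ⟨i, h⟩) else 0, fun i hi => dif_pos hi⟩
  obtain ⟨ed, hed⟩ : ∃ ed : ℕ → ℕ → ℕ, ∀ i c (hi : i < n) (hc : c < n),
      ed i c = G.cE (ε ⟨i, hi⟩ ⟨c, hc⟩) :=
    ⟨fun i c => if h : i < n ∧ c < n then G.cE (ε ⟨i, h.1⟩ ⟨c, h.2⟩) else 0,
      fun i c hi hc => dif_pos ⟨hi, hc⟩⟩
  have hinc : ∀ (e : G.E) (v : G.V), (ofM G φ).G.Inc (G.cE e) (G.cV v) ↔ v ∈ G.ends e :=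
    fun e v => G.inc_cV ∅ (fun v => (⟨0, φ v⟩ : Lb Ω)) ⟨0, default⟩
  have hE : ∀ e : G.E, G.cE e ∈ (ofM G φ).G.E :=
    fun e => (G.mem_E ∅ (fun v => (⟨0, φ v⟩ : Lb Ω)) ⟨0, default⟩).2 ⟨e, fun _ _ h => h, rfl⟩
  refine ⟨s, fun i j l => {ed i ((i * t + j) * t + l), ed j ((i * t + j) * t + l)}, ?_, ?_, ?_⟩
  · intro i hi j hj h
    rw [hs i (hn' i hi), hs j (hn' j hj)] at h
    have h1 := ha (G.cV_inj h)
    exact congrArg Fin.val h1
  · intro i j l hij hj hl
    have hi : i < t := by omega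
    have hc := hn _ (bick_lt hi hj hl)
    have hi' := hn' i hi
    have hj' := hn' j hj
    refine ⟨?_, ?_, ?_⟩
    · intro f hf
      rcases hf with rfl | hf
      · rw [hed _ _ hi' hc]
        exact hE _
      · rw [Set.mem_singleton_iff] at hf
        rw [hf, hed _ _ hj' hc]
        exact hE _
    · rw [hs i hi', hs j hj']
      have h1 : (ofM G φ).G.Conn {ed i ((i * t + j) * t + l), ed j ((i * t + j) * t + l)}
          (G.cV (a ⟨i, hi'⟩)) (G.cV (b ⟨_, hc⟩)) := by
        refine Gr.conn_edge (e := ed i ((i * t + j) * t + l)) (Set.mem_insert _ _) ?_ ?_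
        · rw [hed _ _ hi' hc, hinc, hε]
          exact Sym2.mem_mk_left _ _
        · rw [hed _ _ hi' hc, hinc, hε]
          exact Sym2.mem_mk_right _ _
      have h2 : (ofM G φ).G.Conn {ed i ((i * t + j) * t + l), ed j ((i * t + j) * t + l)}
          (G.cV (b ⟨_, hc⟩)) (G.cV (a ⟨j, hj'⟩)) := by
        refine Gr.conn_edge (e := ed j ((i * t + j) * t + l))
          (Set.mem_insert_of_mem _ (Set.mem_singleton _)) ?_ ?_
        · rw [hed _ _ hj' hc, hinc, hε]
          exact Sym2.mem_mk_right _ _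
        · rw [hed _ _ hj' hc, hinc, hε]
          exact Sym2.mem_mk_left _ _
      exact h1.trans h2
    · intro q hq hqi hqj f hf
      have hq' := hn' q hq
      have key : ∀ x (hx : x < n), q ≠ x → ¬ (ofM G φ).G.Inc (ed x ((i * t + j) * t + l)) (s q) := by
        intro x hx hqx h
        rw [hed _ _ hx hc, hs q hq', hinc, hε, Sym2.mem_iff] at h
        rcases h with h | h
        · exact hqx (congrArg Fin.val (ha h))
        · exact hne _ _ h
      rcases hf with rfl | hf
      · exact key i hi' hqi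
      · rw [Set.mem_singleton_iff] at hf
        rw [hf]
        exact key j hj' hqj
  · intro i j l i' j' l' hij hj hl hij' hj' hl' hne3
    have hi : i < t := by omega
    have hi' : i' < t := by omega
    have hc := hn _ (bick_lt hi hj hl)
    have hc' := hn _ (bick_lt hi' hj' hl')
    have key : ∀ x x' (_ : x < t) (_ : x' < t),
        ed x ((i * t + j) * t + l) ≠ ed x' ((i' * t + j') * t + l') := by
      intro x x' hx hx' h
      rw [hed _ _ (hn' x hx) hc, hed _ _ (hn' x' hx') hc'] at h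
      have h1 := congrArg G.ends (G.cE_inj h)
      rw [hε, hε, Sym2.eq_iff] at h1
      rcases h1 with ⟨_, h1⟩ | ⟨h1, _⟩
      · have h2 : (i * t + j) * t + l = (i' * t + j') * t + l' := congrArg Fin.val (hb h1)
        obtain ⟨h3, h4⟩ := bick_inj1 hl hl' h2
        obtain ⟨h5, h6⟩ := bick_inj1 hj hj' h3
        exact hne3 ⟨h5, h6, h4⟩
      · exact hne _ _ h1
    rw [Set.disjoint_left]
    intro f hf hf'
    simp only [Set.mem_insert_iff, Set.mem_singleton_iff] at hf hf'
    rcases hf with hf | hf <;> rcases hf' with hf' | hf'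
    · exact key i i' hi hi' (hf.symm.trans hf')
    · exact key i j' hi hj' (hf.symm.trans hf')
    · exact key j i' hj hi' (hf.symm.trans hf')
    · exact key j j' hj hj' (hf.symm.trans hf')

/-- PROOF. Let `a, b : Fin (t ^ 3 + t) → G.V`. `s i := G.cV (a i)` for `i < t`. For
`i < j < t`, `l < t` let `c := (i * t + j) * t + l < t ^ 3`, different for different triples;
`Ψ i j l := {cE e, cE e'}` where `e` joins `a i` and `b c` and `e'` joins `a j` and `b c`. It connects
`s i`, `s j` (`MGraph.inc_cE`, `Gr.conn_edge`). The ends of its edges are `a i`, `a j`, `b c`, and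
`a q ≠ b c` as `a q`, `b c` are adjacent and there are no loops. Two of these sets for different
triples are disjoint: an edge determines its end among the `b c` (`b c ≠ a q` for all `q`), `b` is
injective. -/
theorem hasK_of_biclique {Ω : Type} [Preorder Ω] [Inhabited Ω] {t : ℕ} {G : MGraph}
    (φ : G.V → Ω) (h : Biclique (t ^ 3 + t) G) :
    HasK t (ofM G φ).G := by
  obtain ⟨a, b, ha, hb, hab⟩ := h
  choose ε hε using hab
  exact bick_main φ (fun m hm => by omega) (fun m hm => by omega) a b ha hb ε hε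

end Pool.Agent.W2411cw
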