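import Mathlib

/-! Binary trees of sets and their separators. -/

set_option autoImplicit false

namespace Pool.Agent.W2411cw

/-- a rooted binary tree whose nodes are sets, the leaves are the single vertices -/
structure BTree (V : Type) (F : Set (Set V)) : Prop where
  ne : ∀ A ∈ F, A.Nonempty
  lam : ∀ A ∈ F, ∀ B ∈ F, A ⊆ B ∨ B ⊆ A ∨ Disjoint A B
  single : ∀ v : V, {v} ∈ F
  kids : ∀ A ∈ F, (∃ v, A = {v}) ∨ ∃ A₁ ∈ F, ∃ A₂ ∈ F, Disjoint A₁ A₂ ∧ A₁ ∪ A₂ = A
  top : Set.univ ∈ F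

/-- at each node at most `k` labels, vertices with the same label have the same neighbours
outside -/
def Hom (V : Type) (F : Set (Set V)) (adj : V → V → Prop) (k : ℕ) : Prop :=
  ∀ A ∈ F, ∃ lab : V → Fin k, ∀ x ∈ A, ∀ x' ∈ A, lab x = lab x' → ∀ y ∉ A, (adj x y ↔ adj x' y)

/-- the class of `v` at the node `A` -/
def cls {V : Type} (adj : V → V → Prop) (A : Set V) (v : V) : Set V :=
  {x | x ∈ A ∧ ∀ y ∉ A, (adj x y ↔ adj v y)}

/-- the separator of the node `A`: the vertices in small classes, and the outside neighbours of large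
classes -/
def SS {V : Type} (adj : V → V → Prop) (n : ℕ) (A : Set V) : Set V :=
  {v | v ∈ A ∧ (cls adj A v).ncard < n} ∪
    {v | v ∉ A ∧ ∃ x ∈ A, n ≤ (cls adj A x).ncard ∧ adj x v}

/-- `B` is a kid of `A` -/
def Kid {V : Type} (F : Set (Set V)) (A B : Set V) : Prop :=
  A ∈ F ∧ B ∈ F ∧ ∃ C ∈ F, Disjoint B C ∧ B ∪ C = A

/-- the bag of the node `A` -/
def bag {V : Type} (F : Set (Set V)) (adj : V → V → Prop) (n : ℕ) (A : Set V) : Set V :=
  SS adj n A ∪ ⋃ B ∈ {B | Kid F A B}, SS adj n B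

/-- no complete bipartite subgraph with `n` vertices on both sides -/
def NoBi {V : Type} (adj : V → V → Prop) (n : ℕ) : Prop :=
  ∀ P Q : Set V, n ≤ P.ncard → n ≤ Q.ncard → ∃ p ∈ P, ∃ q ∈ Q, ¬ adj p q

end Pool.Agent.W2411cw
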