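import Mathlib
import Pool.Agent.W_2411cw_h59.LamDef

/-! Separators of a binary tree of sets: basic facts. -/

set_option autoImplicit false

namespace Pool.Agent.W2411cw

variable {V : Type} [Finite V] {F : Set (Set V)} {adj : V → V → Prop} {k n : ℕ}

/-- PROOF. The same neighbours outside `A` implies the same neighbours outside `B ⊇ A`. -/
theorem cls_mono {A B : Set V} (h : A ⊆ B) (v : V) : cls adj A v ⊆ cls adj B v := by
  intro x hx
  exact ⟨h hx.1, fun y hy => hx.2 y (fun hyA => hy (h hyA))⟩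

/-- PROOF. `x ∈ A` with `n ≤ |cls A x| ≤ |cls B x|` (`cls_mono`, `Set.ncard_le_ncard`). -/
theorem ss_up {A B : Set V} (h : A ⊆ B) {v : V} (hv : v ∉ B) (hs : v ∈ SS adj n A) :
    v ∈ SS adj n B := by
  rcases hs with hs | ⟨_, x, hx, hxn, hxv⟩
  · exact absurd (h hs.1) hv
  · exact Or.inr ⟨hv, x, h hx, hxn.trans (Set.ncard_le_ncard (cls_mono h x) (Set.toFinite _)), hxv⟩

/-- PROOF. `v ∉ C`, so there is `x ∈ C` with `n ≤ |cls C x|` and `adj x v`. Suppose
`n ≤ |cls B v|`. All `x' ∈ cls C x` satisfy `adj x' v` (`v ∉ C`), and for such `x'` all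
`v' ∈ cls B v` satisfy `adj v' x' ↔ adj v x'` (`x' ∉ B`), so `adj v' x'` by symmetry. This contradicts
`NoBi`. -/
theorem ss_sib (hsym : ∀ u v, adj u v → adj v u) (hn : NoBi adj n) {B C : Set V}
    (hd : Disjoint B C) {v : V} (hv : v ∈ B) (hs : v ∈ SS adj n C) : (cls adj B v).ncard < n := by
  have hvC : v ∉ C := Set.disjoint_left.1 hd hv
  rcases hs with hs | ⟨_, x, hx, hxn, hxv⟩
  · exact absurd hs.1 hvC
  · by_contra hlt
    obtain ⟨p, hp, q, hq, hpq⟩ := hn (cls adj C x) (cls adj B v) hxn (not_lt.1 hlt)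
    apply hpq
    have h1 : adj p v := (hp.2 v hvC).2 hxv
    have h2 : p ∉ B := Set.disjoint_right.1 hd hp.1
    exact hsym _ _ ((hq.2 p h2).2 (hsym _ _ h1))

/-- PROOF. Let `lab` be the labelling for `A`. For a label `i` used by some `x ∈ A` choose such
an `x i`. Let `T i := {v ∈ A | lab v = i}` if `|cls A (x i)| < n` and
`T i := {v ∉ A | adj (x i) v}` otherwise, `T i := ∅` for unused labels. `|T i| ≤ n`: in the first case
`T i ⊆ cls A (x i)`; in the second case by `NoBi` for `cls A (x i)` and `T i` (all `p` in the first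
and `q` in the second are adjacent). `SS adj n A ⊆ ⋃ T i`: if `v ∈ A` has a small class and
`i = lab v` then `cls A v = cls A (x i)` is small; if `v ∉ A` and `x ∈ A` has a large class and
`adj x v` then with `i = lab x` the classes of `x` and `x i` are equal and `adj (x i) v`. So
`|SS| ≤ k * n` (`Set.ncard_iUnion_le`-style, or `Finset.card_biUnion_le`). -/
theorem ss_card (hh : Hom V F adj k) (hn : NoBi adj n) {A : Set V} (hA : A ∈ F) :
    (SS adj n A).ncard ≤ k * n := by
  classical
  obtain ⟨lab, hlab⟩ := hh A hA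
  have hcl : ∀ x ∈ A, ∀ x' ∈ A, lab x = lab x' → cls adj A x ⊆ cls adj A x' := by
    intro x hx x' hx' he z hz
    exact ⟨hz.1, fun y hy => (hz.2 y hy).trans (hlab x hx x' hx' he y hy)⟩
  have hT : ∀ i : Fin k, ∃ T : Set V, T.ncard ≤ n ∧
      ∀ v, v ∈ SS adj n A → (v ∈ A → lab v = i → v ∈ T) ∧
        (v ∉ A → ∀ x ∈ A, lab x = i → n ≤ (cls adj A x).ncard → adj x v → v ∈ T) := by
    intro i
    by_cases hi : ∃ x ∈ A, lab x = i
    · obtain ⟨x, hx, hxi⟩ := hi
      by_cases hs : (cls adj A x).ncard < n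
      · refine ⟨cls adj A x, hs.le, fun v _ => ⟨fun hvA hvi => ?_, fun _ x' hx' hxi' hn' _ => ?_⟩⟩
        · exact hcl v hvA x hx (hvi.trans hxi.symm) ⟨hvA, fun y _ => Iff.rfl⟩
        · exact absurd (hn'.trans (Set.ncard_le_ncard (hcl x' hx' x hx (hxi'.trans hxi.symm))
            (Set.toFinite _))) (not_le.2 hs)
      · refine ⟨{v | v ∉ A ∧ adj x v}, ?_, fun v hv => ⟨fun hvA hvi => ?_,
          fun hvA x' hx' hxi' _ hadj => ?_⟩⟩
        · by_contra hgt
          obtain ⟨p, hp, q, hq, hpq⟩ := hn (cls adj A x) {v | v ∉ A ∧ adj x v} (not_lt.1 hs)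
            (not_le.1 hgt).le
          exact hpq ((hp.2 q hq.1).2 hq.2)
        · exfalso
          rcases hv with hv | hv
          · exact hs (lt_of_le_of_lt (Set.ncard_le_ncard (hcl x hx v hvA (hxi.trans hvi.symm))
              (Set.toFinite _)) hv.2)
          · exact hv.1 hvA
        · exact ⟨hvA, (hlab x' hx' x hx (hxi'.trans hxi.symm) v hvA).1 hadj⟩
    · refine ⟨∅, by simp, fun v _ => ⟨fun hvA hvi => absurd ⟨v, hvA, hvi⟩ hi,
        fun _ x' hx' hxi' _ _ => absurd ⟨x', hx', hxi'⟩ hi⟩⟩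
  choose T hTn hTs using hT
  have hsub : SS adj n A ⊆ ⋃ i, T i := by
    intro v hv
    rw [Set.mem_iUnion]
    by_cases hvA : v ∈ A
    · exact ⟨lab v, (hTs (lab v) v hv).1 hvA rfl⟩
    · have hv' := hv
      rcases hv' with hv' | ⟨_, x, hx, hxn, hxv⟩
      · exact absurd hv'.1 hvA
      · exact ⟨lab x, (hTs (lab x) v hv).2 hvA x hx rfl hxn hxv⟩
  refine (Set.ncard_le_ncard hsub (Set.toFinite _)).trans ?_
  have h2 : (⋃ i, T i).ncard ≤ ∑ i : Fin k, (T i).ncard := by
    have := Set.ncard_iUnion_le_of_fintype T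
    exact this
  refine h2.trans ((Finset.sum_le_sum (fun i _ => hTn i)).trans ?_)
  simp

/-- PROOF. If `Kid F A B` with `C` and `Kid F A B'` with `C'`: by laminarity `B'` is `B` or
`C`: `B' ⊆ B ∪ C`, `B'` is nonempty. `B' ⊆ B`: then `C ⊆ C'`; if `B' ≠ B` then `C'` meets `B` and
contains `C`, ... use laminarity of `C'` and `B`: `C' ⊆ B` impossible (`C` nonempty, disjoint from
`B`), `B ⊆ C'` contradicts `B' ⊆ B` nonempty and disjoint from `C'`, `Disjoint C' B` contradicts.
Similarly the other cases. So `A` has at most two kids. -/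
theorem kid_two (hF : BTree V F) {A : Set V} : ∃ B C : Set V, ∀ D, Kid F A D → D = B ∨ D = C := by
  by_cases hk : ∃ B, Kid F A B
  · obtain ⟨B, hA, hB, C, hC, hBC, hU⟩ := hk
    -- a member of the second pair contained in a member of the first pair is equal to it
    have key : ∀ X ∈ F, ∀ Y ∈ F, Disjoint X Y → X ∪ Y = A → ∀ D ∈ F, ∀ E ∈ F, Disjoint D E →
        D ∪ E = A → D ⊆ X → D = X := by
      intro X hX Y hY hXY hXYA D hD E hE hDE hDEA hDX
      refine Set.Subset.antisymm hDX (fun z hz => ?_)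
      by_contra hzD
      have hzA : z ∈ A := hXYA ▸ Or.inl hz
      have hzE : z ∈ E := by
        rw [← hDEA] at hzA
        rcases hzA with h | h
        · exact absurd h hzD
        · exact h
      obtain ⟨y, hy⟩ := hF.ne Y hY
      have hyX : y ∉ X := Set.disjoint_right.1 hXY hy
      have hyE : y ∈ E := by
        have hyA : y ∈ A := hXYA ▸ Or.inr hy
        rw [← hDEA] at hyA
        rcases hyA with h | h
        · exact absurd (hDX h) hyX
        · exact h
      obtain ⟨d, hd⟩ := hF.ne D hD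
      rcases hF.lam E hE X hX with h | h | h
      · exact hyX (h hyE)
      · exact Set.disjoint_left.1 hDE hd (h (hDX hd))
      · exact Set.disjoint_left.1 h hzE hz
    refine ⟨B, C, fun D hDk => ?_⟩
    obtain ⟨_, hD, E, hE, hDE, hDEA⟩ := hDk
    rcases hF.lam D hD B hB with h | h | h
    · exact Or.inl (key B hB C hC hBC hU D hD E hE hDE hDEA h)
    · exact Or.inl (key D hD E hE hDE hDEA B hB C hC hBC hU h).symm
    · right
      refine key C hC B hB hBC.symm (by rw [Set.union_comm]; exact hU) D hD E hE hDE hDEA ?_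
      intro z hz
      have hzA : z ∈ A := hDEA ▸ Or.inl hz
      rw [← hU] at hzA
      rcases hzA with h' | h'
      · exact absurd h' (Set.disjoint_left.1 h hz)
      · exact h'
  · exact ⟨A, A, fun D hD => absurd ⟨D, hD⟩ hk⟩

/-- PROOF. `bag ⊆ SS A ∪ SS B ∪ SS C` for the two kids (`kid_two`), `ss_card`. -/
theorem bag_card (hF : BTree V F) (hh : Hom V F adj k) (hn : NoBi adj n) {A : Set V}
    (hA : A ∈ F) : (bag F adj n A).ncard ≤ 3 * (k * n) := by
  classical
  obtain ⟨B, C, hBC⟩ := kid_two hF (A := A)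
  have hX : ∀ X : Set V, (if Kid F A X then SS adj n X else ∅ : Set V).ncard ≤ k * n := by
    intro X
    split_ifs with h
    · exact ss_card hh hn h.2.1
    · simp
  have hsub : bag F adj n A ⊆ SS adj n A ∪ ((if Kid F A B then SS adj n B else ∅ : Set V) ∪
      (if Kid F A C then SS adj n C else ∅ : Set V)) := by
    intro v hv
    rcases hv with hv | hv
    · exact Or.inl hv
    · simp only [Set.mem_iUnion] at hv
      obtain ⟨D, hD, hvD⟩ := hv
      have hD' : Kid F A D := hD
      right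
      rcases hBC D hD' with rfl | rfl
      · left
        rw [if_pos hD']
        exact hvD
      · right
        rw [if_pos hD']
        exact hvD
  have h1 := ss_card hh hn hA
  have h2 := hX B
  have h3 := hX C
  have h4 := Set.ncard_le_ncard hsub (Set.toFinite _)
  have h5 := Set.ncard_union_le (SS adj n A) ((if Kid F A B then SS adj n B else ∅ : Set V) ∪
      (if Kid F A C then SS adj n C else ∅ : Set V))
  have h6 := Set.ncard_union_le (if Kid F A B then SS adj n B else ∅ : Set V)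
      (if Kid F A C then SS adj n C else ∅ : Set V)
  omega

/-- PROOF. Let `A ⊂ C`, `C ∈ F`, `Kid F B A` with `B = A ∪ D`. `C` and `D` are laminar:
`C ⊆ D` is impossible (`A ⊆ C` nonempty and disjoint from `D`), `D ⊆ C` gives `B ⊆ C`; if they are
disjoint: `C` and `B` are laminar: `C ⊆ B = A ∪ D` gives `C ⊆ A`, contradiction; `B ⊆ C` done;
disjoint impossible. -/
private theorem gwa_kid_le_aux (hF : BTree V F) {A B C : Set V} (hk : Kid F B A) (hC : C ∈ F)
    (h : A ⊂ C) : B ⊆ C := by
  obtain ⟨hB, hA, D, hD, hAD, hU⟩ := hk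
  obtain ⟨a, ha⟩ := hF.ne A hA
  rcases hF.lam C hC D hD with h1 | h1 | h1
  · exact absurd (h1 (h.1 ha)) (Set.disjoint_left.1 hAD ha)
  · rw [← hU]
    exact Set.union_subset h.1 h1
  · rcases hF.lam C hC B hB with h2 | h2 | h2
    · exfalso
      apply h.2
      intro c hc
      have := h2 hc
      rw [← hU] at this
      rcases this with h3 | h3
      · exact h3
      · exact absurd h3 (Set.disjoint_left.1 h1 hc)
    · exact h2
    · exact absurd (show a ∈ B from hU ▸ Or.inl ha) (Set.disjoint_left.1 h2 (h.1 ha))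

/-- The smallest member that strictly contains `A` has `A` as a kid. PROOF. `A ≠ univ`; among the
members `C ∈ F` with `A ⊂ C` (`univ` is one) choose one, `B`, with least `ncard`. `B` is not a
singleton, `B = B₁ ∪ B₂` disjoint members; let `v ∈ A`, say `v ∈ B₁`. `A`, `B₁` are comparable
(laminar, common `v`); `A ⊂ B₁` contradicts the choice of `B` (`B₁ ⊂ B` as `B₂` is nonempty). So
`B₁ ⊆ A`. `A`, `B₂`: `B₂ ⊆ A` gives `B ⊆ A`, contradiction; `A ⊆ B₂` contradicts `v ∈ B₁`; so they
are disjoint and `A ⊆ B₁`, `A = B₁`. The last claim: a member `C` with `A ⊂ C` is comparable with `B`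
or disjoint (impossible, `A` nonempty): if `C ⊂ B` then `ncard C < ncard B`, contradiction. -/
theorem exists_parent (hF : BTree V F) {A : Set V} (hA : A ∈ F) (h : A ≠ Set.univ) :
    ∃ B, Kid F B A ∧ A ⊂ B ∧ ∀ C ∈ F, A ⊂ C → B ⊆ C := by
  have hne : ({C | C ∈ F ∧ A ⊂ C} : Set (Set V)).Nonempty :=
    ⟨Set.univ, hF.top, (Set.ssubset_univ_iff).2 h⟩
  obtain ⟨B, ⟨hB, hAB⟩, hmin⟩ := Set.exists_min_image _ (fun C : Set V => C.ncard)
    (Set.toFinite {C | C ∈ F ∧ A ⊂ C}) hne
  obtain ⟨a, ha⟩ := hF.ne A hA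
  -- the general step
  have step : ∀ B₁ ∈ F, ∀ B₂ ∈ F, Disjoint B₁ B₂ → B₁ ∪ B₂ = B → a ∈ B₁ → Kid F B A := by
    intro B₁ h1 B₂ h2 hd hU ha1
    have hlt : B₁ ⊂ B := by
      refine ⟨hU ▸ Set.subset_union_left, fun hle => ?_⟩
      obtain ⟨b, hb⟩ := hF.ne B₂ h2
      exact Set.disjoint_right.1 hd hb (hle (hU ▸ Or.inr hb))
    have h1A : B₁ ⊆ A := by
      rcases hF.lam A hA B₁ h1 with h3 | h3 | h3
      · by_contra hcon
        have hm := hmin B₁ ⟨h1, h3, hcon⟩
        exact absurd (Set.ncard_lt_ncard hlt (Set.toFinite _)) (not_lt.2 hm)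
      · exact h3
      · exact absurd ha1 (Set.disjoint_left.1 h3 ha)
    have hAe : A = B₁ := by
      refine Set.Subset.antisymm (fun z hz => ?_) h1A
      rcases hF.lam A hA B₂ h2 with h3 | h3 | h3
      · exact absurd (h3 ha) (Set.disjoint_left.1 hd ha1)
      · exact absurd (hU ▸ Set.union_subset h1A h3) hAB.2
      · have hzB := hAB.1 hz
        rw [← hU] at hzB
        rcases hzB with h4 | h4
        · exact h4
        · exact absurd h4 (Set.disjoint_left.1 h3 hz)
    subst hAe
    exact ⟨hB, hA, B₂, h2, hd, hU⟩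
  have hkid : Kid F B A := by
    rcases hF.kids B hB with ⟨v, hv⟩ | ⟨B₁, h1, B₂, h2, hd, hU⟩
    · exfalso
      subst hv
      rcases Set.subset_singleton_iff_eq.1 hAB.1 with h3 | h3
      · rw [h3] at ha
        exact ha
      · rw [h3] at hAB
        exact hAB.2 le_rfl
    · have haB := hAB.1 ha
      rw [← hU] at haB
      rcases haB with h3 | h3
      · exact step B₁ h1 B₂ h2 hd hU h3
      · exact step B₂ h2 B₁ h1 hd.symm (by rw [Set.union_comm]; exact hU) h3
  exact ⟨B, hkid, hAB, fun C hC hAC => gwa_kid_le_aux hF hkid hC hAC⟩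

/-- PROOF. Let `A ⊂ C`, `C ∈ F`, `Kid F B A` with `B = A ∪ D`. `C` and `D` are laminar:
`C ⊆ D` is impossible (`A ⊆ C` nonempty and disjoint from `D`), `D ⊆ C` gives `B ⊆ C`; if they are
disjoint: `C` and `B` are laminar: `C ⊆ B = A ∪ D` gives `C ⊆ A`, contradiction; `B ⊆ C` done;
disjoint impossible. -/
theorem kid_le (hF : BTree V F) {A B C : Set V} (hk : Kid F B A) (hC : C ∈ F) (h : A ⊂ C) :
    B ⊆ C :=
  gwa_kid_le_aux hF hk hC h

/-- The largest node at which the class of `v` is small. PROOF. The members containing `v` with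
`|cls| < n` form a finite nonempty set (`{v}` has `cls ⊆ {v}`, `ncard ≤ 1 < n`) of pairwise comparable
sets (laminar, common element `v`); take one with the greatest `ncard`. If a member `C ∋ v` is not
contained in it then `|cls C v| ≥ n`. -/
theorem exists_last (hF : BTree V F) (hn2 : 2 ≤ n) (v : V) : ∃ A ∈ F, v ∈ A ∧
    (cls adj A v).ncard < n ∧ ∀ C ∈ F, v ∈ C → ((cls adj C v).ncard < n ↔ C ⊆ A) := by
  have hne : ({C | C ∈ F ∧ v ∈ C ∧ (cls adj C v).ncard < n} : Set (Set V)).Nonempty := by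
    refine ⟨{v}, hF.single v, rfl, ?_⟩
    have h1 : cls adj {v} v ⊆ {v} := fun x hx => hx.1
    have h2 := Set.ncard_le_ncard h1 (Set.toFinite _)
    rw [Set.ncard_singleton] at h2
    omega
  obtain ⟨A, ⟨hA, hvA, hsA⟩, hmax⟩ := Set.exists_max_image _ (fun C : Set V => C.ncard)
    (Set.toFinite {C | C ∈ F ∧ v ∈ C ∧ (cls adj C v).ncard < n}) hne
  refine ⟨A, hA, hvA, hsA, fun C hC hvC => ⟨fun hlt => ?_, fun hle => ?_⟩⟩
  · rcases hF.lam C hC A hA with h | h | h
    · exact h
    · have hm := hmax C ⟨hC, hvC, hlt⟩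
      exact (Set.eq_of_subset_of_ncard_le h hm (Set.toFinite _)).ge
    · exact absurd hvA (Set.disjoint_left.1 h hvC)
  · exact lt_of_le_of_lt (Set.ncard_le_ncard (cls_mono hle v) (Set.toFinite _)) hsA

end Pool.Agent.W2411cw
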