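import Mathlib
import Pool.Agent.W_2411cw_h59.GWa

/-! The bags form a tree decomposition. -/

set_option autoImplicit false

namespace Pool.Agent.W2411cw

variable {V : Type} [Finite V] {F : Set (Set V)} {adj : V → V → Prop} {n : ℕ}

/-- a member of least size with a property of `univ` -/
private theorem gwb_min (hF : BTree V F) (P : Set V → Prop) (hP : P Set.univ) :
    ∃ p ∈ F, P p ∧ ∀ C ∈ F, P C → p.ncard ≤ C.ncard := by
  have hne : ({C | C ∈ F ∧ P C} : Set (Set V)).Nonempty := ⟨Set.univ, hF.top, hP⟩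
  obtain ⟨B, ⟨hB, hPB⟩, hmin⟩ := Set.exists_min_image _ (fun C : Set V => C.ncard)
    (Set.toFinite {C | C ∈ F ∧ P C}) hne
  exact ⟨B, hB, hPB, fun C hC hPC => hmin C ⟨hC, hPC⟩⟩

private theorem gwb_lt (hF : BTree V F) {p p₁ p₂ : Set V} (h2 : p₂ ∈ F)
    (hd : Disjoint p₁ p₂) (hU : p₁ ∪ p₂ = p) : p₁.ncard < p.ncard := by
  refine Set.ncard_lt_ncard ⟨hU ▸ Set.subset_union_left, fun hle => ?_⟩ (Set.toFinite _)
  obtain ⟨b, hb⟩ := hF.ne p₂ h2
  exact Set.disjoint_right.1 hd hb (hle (hU ▸ Or.inr hb))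

private theorem gwb_small {A : Set V} {v : V} (hv : v ∈ A) (hs : v ∈ SS adj n A) :
    (cls adj A v).ncard < n := by
  rcases hs with hs | ⟨h, _⟩
  · exact hs.2
  · exact absurd hv h

private theorem gwb_kid_bag {A B : Set V} (hk : Kid F A B) {v : V} (hv : v ∈ SS adj n B) :
    v ∈ bag F adj n A :=
  Or.inr (Set.mem_biUnion (show B ∈ {B | Kid F A B} from hk) hv)

private theorem gwb_bag_cases {A : Set V} {v : V} (hv : v ∈ bag F adj n A) :
    v ∈ SS adj n A ∨ ∃ B, Kid F A B ∧ v ∈ SS adj n B := by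
  rcases hv with hv | hv
  · exact Or.inl hv
  · simp only [Set.mem_iUnion] at hv
    obtain ⟨D, hD, hvD⟩ := hv
    exact Or.inr ⟨D, hD, hvD⟩

private theorem gwb_edge_aux (hF : BTree V F) (hn2 : 2 ≤ n) {u v : V} (h : adj u v)
    {p₁ p₂ : Set V} (h1 : p₁ ∈ F) (hd : Disjoint p₁ p₂) (hu : u ∈ p₁) (hv : v ∈ p₂)
    (hl : n ≤ (cls adj p₁ u).ncard) :
    ∃ A ∈ F, u ∈ bag F adj n A ∧ v ∈ bag F adj n A := by
  obtain ⟨A, hA, huA, hsA, hlast⟩ := exists_last (adj := adj) hF hn2 u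
  have hvp : v ∉ p₁ := Set.disjoint_right.1 hd hv
  have hnot : ¬ p₁ ⊆ A := fun hle => absurd ((hlast p₁ h1 hu).2 hle) (not_lt.2 hl)
  have hAp : A ⊂ p₁ := by
    rcases hF.lam A hA p₁ h1 with h3 | h3 | h3
    · exact ⟨h3, hnot⟩
    · exact absurd h3 hnot
    · exact absurd hu (Set.disjoint_left.1 h3 huA)
  have hAu : A ≠ Set.univ := fun hc => hnot (hc ▸ Set.subset_univ _)
  obtain ⟨q, hk, hAq, hq⟩ := exists_parent hF hA hAu
  have hqp := hq p₁ h1 hAp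
  refine ⟨q, hk.1, gwb_kid_bag hk (Or.inl ⟨huA, hsA⟩), Or.inl (Or.inr ⟨fun hc => hvp (hqp hc), u,
    hAq.1 huA, ?_, h⟩)⟩
  by_contra hlt
  exact hAq.2 ((hlast q hk.1 (hAq.1 huA)).1 (not_le.1 hlt))

/-- The trace of a vertex. PROOF. `A` from `exists_last`: the largest node with a small class of
`v`. If `A = univ` let `s := univ`; otherwise `s :=` the parent of `A` (`exists_parent`). `v ∈ bag s`:
`v ∈ SS A`, and `A = s` or `Kid F s A`.
(a) If `Kid F p D`, `v ∈ D` and `|cls D v| < n` then `p ⊆ s`: `D ⊆ A`; if `A = univ` clear; if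
`D ⊂ A` then `p ⊆ A ⊆ s` by `kid_le`; if `D = A` then `D ⊂ s`, `p ⊆ s` by `kid_le`.
(b) If `v ∈ SS j` then `j ⊆ s` (`j ∈ F`): if `v ∈ j` then its class is small, `j ⊆ A ⊆ s`. If
`v ∉ j`: let `p` be a member of least `ncard` containing `j` and `v` (`univ` is one). `p` is no
singleton (`j` nonempty, `v ∉ j`), `p = p₁ ∪ p₂` disjoint members, say `v ∈ p₁`. `j`, `p₁` laminar:
`j ⊆ p₁` contradicts the choice of `p`; `p₁ ⊆ j` contradicts `v ∉ j`; so disjoint and `j ⊆ p₂`. By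
`ss_up` `v ∈ SS p₂` (`v ∉ p₂`), by `ss_sib` `|cls p₁ v| < n`, so by (a) `p ⊆ s`.
(c) `v ∈ bag j` gives `j ⊆ s`: `v ∈ SS j`: (b). `v ∈ SS B`, `Kid F j B`, `j = B ∪ C`: if `v ∈ B` then
`|cls B v| < n`, (a). If `v ∈ C` then `ss_sib` gives `|cls C v| < n` and `Kid F j C`, (a). If
`v ∉ j` then `v ∈ SS j` by `ss_up`, (b).
(d) `j ⊆ i ⊆ s`, `v ∈ bag j` gives `v ∈ bag i`: if `v ∈ i`: if `i ⊆ A` then the class is small and
`v ∈ SS i`; otherwise `i` and `A` are comparable (common `v`), `A ⊂ i ⊆ s`, so `A ≠ univ` and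
`s ⊆ i` (`exists_parent`), `i = s`. If `v ∉ i` then `v ∉ j`, and `v ∈ SS j` (directly or from a kid by
`ss_up`), so `v ∈ SS i` by `ss_up`. -/
theorem trace (hF : BTree V F) (hsym : ∀ u v, adj u v → adj v u) (hn : NoBi adj n) (hn2 : 2 ≤ n)
    (v : V) : ∃ s ∈ F, v ∈ bag F adj n s ∧ (∀ j ∈ F, v ∈ bag F adj n j → j ⊆ s) ∧
      ∀ i ∈ F, ∀ j ∈ F, v ∈ bag F adj n j → i ⊆ s → j ⊆ i → v ∈ bag F adj n i := by
  obtain ⟨A, hA, hvA, hsA, hlast⟩ := exists_last (adj := adj) hF hn2 v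
  have hSA : v ∈ SS adj n A := Or.inl ⟨hvA, hsA⟩
  obtain ⟨s, hsF, hAs, hbag, hss, hpar⟩ : ∃ s ∈ F, A ⊆ s ∧ v ∈ bag F adj n s ∧
      (s = Set.univ ∨ A ⊂ s) ∧ (∀ i ∈ F, A ⊂ i → s ⊆ i) := by
    by_cases hAu : A = Set.univ
    · refine ⟨Set.univ, hF.top, Set.subset_univ _, hAu ▸ Or.inl hSA, Or.inl rfl, ?_⟩
      intro i _ hi
      exact absurd (hAu ▸ Set.subset_univ i) hi.2
    · obtain ⟨B, hk, hAB, hB⟩ := exists_parent hF hA hAu
      exact ⟨B, hk.1, hAB.1, gwb_kid_bag hk hSA, Or.inr hAB, hB⟩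
  have ha : ∀ p D : Set V, Kid F p D → v ∈ D → (cls adj D v).ncard < n → p ⊆ s := by
    intro p D hk hvD hlt
    have hDA := (hlast D hk.2.1 hvD).1 hlt
    rcases hss with hs | hs
    · exact hs ▸ Set.subset_univ _
    · exact kid_le hF hk hsF ⟨hDA.trans hs.1, fun hc => hs.2 (hc.trans hDA)⟩
  have hb : ∀ j ∈ F, v ∈ SS adj n j → j ⊆ s := by
    intro j hj hv
    by_cases hvj : v ∈ j
    · exact ((hlast j hj hvj).1 (gwb_small hvj hv)).trans hAs
    · obtain ⟨p, hp, ⟨hjp, hvp⟩, hmin⟩ := gwb_min hF (fun C => j ⊆ C ∧ v ∈ C)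
        ⟨Set.subset_univ _, Set.mem_univ _⟩
      refine hjp.trans ?_
      have step : ∀ p₁ ∈ F, ∀ p₂ ∈ F, Disjoint p₁ p₂ → p₁ ∪ p₂ = p → v ∈ p₁ → p ⊆ s := by
        intro p₁ h1 p₂ h2 hd hU hv1
        have hjp2 : j ⊆ p₂ := by
          rcases hF.lam j hj p₁ h1 with h3 | h3 | h3
          · exact absurd (hmin p₁ h1 ⟨h3, hv1⟩) (not_le.2 (gwb_lt hF h2 hd hU))
          · exact absurd (h3 hv1) hvj
          · intro z hz
            have hzp := hjp hz
            rw [← hU] at hzp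
            rcases hzp with h4 | h4
            · exact absurd h4 (Set.disjoint_left.1 h3 hz)
            · exact h4
        have hv2 : v ∉ p₂ := Set.disjoint_left.1 hd hv1
        exact ha p p₁ ⟨hp, h1, p₂, h2, hd, hU⟩ hv1 (ss_sib hsym hn hd hv1 (ss_up hjp2 hv2 hv))
      rcases hF.kids p hp with ⟨w, hw⟩ | ⟨p₁, h1, p₂, h2, hd, hU⟩
      · exfalso
        obtain ⟨z, hz⟩ := hF.ne j hj
        have hzw : z ∈ p := hjp hz
        rw [hw] at hzw hvp
        have h5 : z = v := (Set.mem_singleton_iff.1 hzw).trans (Set.mem_singleton_iff.1 hvp).symm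
        exact hvj (h5 ▸ hz)
      · have hvp' := hvp
        rw [← hU] at hvp'
        rcases hvp' with h4 | h4
        · exact step p₁ h1 p₂ h2 hd hU h4
        · exact step p₂ h2 p₁ h1 hd.symm (by rw [Set.union_comm]; exact hU) h4
  refine ⟨s, hsF, hbag, ?_, ?_⟩
  · intro j hj hv
    rcases gwb_bag_cases hv with hv | ⟨B, hk, hv⟩
    · exact hb j hj hv
    · obtain ⟨hj', hB, C, hC, hBC, hU⟩ := hk
      by_cases hvB : v ∈ B
      · exact ha j B ⟨hj', hB, C, hC, hBC, hU⟩ hvB (gwb_small hvB hv)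
      · by_cases hvC : v ∈ C
        · exact ha j C ⟨hj', hC, B, hB, hBC.symm, by rw [Set.union_comm]; exact hU⟩ hvC
            (ss_sib hsym hn hBC.symm hvC hv)
        · refine hb j hj (ss_up (hU ▸ Set.subset_union_left) ?_ hv)
          intro hvj
          rw [← hU] at hvj
          rcases hvj with h4 | h4
          · exact hvB h4
          · exact hvC h4
  · intro i hi j hj hv his hji
    by_cases hvi : v ∈ i
    · by_cases hiA : i ⊆ A
      · exact Or.inl (Or.inl ⟨hvi, (hlast i hi hvi).2 hiA⟩)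
      · have hAi : A ⊂ i := by
          rcases hF.lam A hA i hi with h3 | h3 | h3
          · exact ⟨h3, hiA⟩
          · exact absurd h3 hiA
          · exact absurd hvi (Set.disjoint_left.1 h3 hvA)
        have : i = s := Set.Subset.antisymm his (hpar i hi hAi)
        rw [this]
        exact hbag
    · have hvj : v ∉ j := fun hc => hvi (hji hc)
      rcases gwb_bag_cases hv with hv | ⟨B, hk, hv⟩
      · exact Or.inl (ss_up hji hvi hv)
      · obtain ⟨_, _, C, _, _, hU⟩ := hk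
        have hBj : B ⊆ j := hU ▸ Set.subset_union_left
        exact Or.inl (ss_up (hBj.trans hji) hvi hv)

/-- Edges. PROOF. `u ≠ v`. Let `p` be a member of least `ncard` containing `u` and `v`,
`p = p₁ ∪ p₂` disjoint members; both are in different ones by the choice of `p`; say `u ∈ p₁`,
`v ∈ p₂` (the situation is symmetric in `u, v` by `hsym`). If both classes `cls p₁ u`, `cls p₂ v` are
small then `u ∈ SS p₁`, `v ∈ SS p₂`, both in `bag p`. Otherwise say `|cls p₁ u| ≥ n`. Let `A` be from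
`exists_last` for `u`; `A ⊂ p₁` (comparable, common `u`; `p₁ ⊆ A` is false as the class at `p₁` is
large); `q` the parent of `A` (`A ≠ univ`), `q ⊆ p₁`. `u ∈ SS A ⊆ bag q`. `q ⊄ A` so
`|cls q u| ≥ n`, `v ∉ q`, `adj u v`: `v ∈ SS q ⊆ bag q`. -/
theorem edge_bag (hF : BTree V F) (hsym : ∀ u v, adj u v → adj v u) (hn2 : 2 ≤ n) {u v : V}
    (huv : u ≠ v) (h : adj u v) : ∃ A ∈ F, u ∈ bag F adj n A ∧ v ∈ bag F adj n A := by
  obtain ⟨p, hp, ⟨hup, hvp⟩, hmin⟩ := gwb_min hF (fun C => u ∈ C ∧ v ∈ C)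
    ⟨Set.mem_univ _, Set.mem_univ _⟩
  have step : ∀ p₁ ∈ F, ∀ p₂ ∈ F, Disjoint p₁ p₂ → p₁ ∪ p₂ = p → u ∈ p₁ →
      ∃ A ∈ F, u ∈ bag F adj n A ∧ v ∈ bag F adj n A := by
    intro p₁ h1 p₂ h2 hd hU hu1
    have hv1 : v ∉ p₁ := fun hc =>
      absurd (hmin p₁ h1 ⟨hu1, hc⟩) (not_le.2 (gwb_lt hF h2 hd hU))
    have hv2 : v ∈ p₂ := by
      have hvp' := hvp
      rw [← hU] at hvp'
      rcases hvp' with h4 | h4
      · exact absurd h4 hv1
      · exact h4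
    by_cases hl1 : n ≤ (cls adj p₁ u).ncard
    · exact gwb_edge_aux hF hn2 h h1 hd hu1 hv2 hl1
    · by_cases hl2 : n ≤ (cls adj p₂ v).ncard
      · obtain ⟨A, hA, h5, h6⟩ := gwb_edge_aux hF hn2 (hsym _ _ h) h2 hd.symm hv2 hu1 hl2
        exact ⟨A, hA, h6, h5⟩
      · refine ⟨p, hp, gwb_kid_bag ⟨hp, h1, p₂, h2, hd, hU⟩ (Or.inl ⟨hu1, not_le.1 hl1⟩),
          gwb_kid_bag ⟨hp, h2, p₁, h1, hd.symm, by rw [Set.union_comm]; exact hU⟩
          (Or.inl ⟨hv2, not_le.1 hl2⟩)⟩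
  rcases hF.kids p hp with ⟨w, hw⟩ | ⟨p₁, h1, p₂, h2, hd, hU⟩
  · exfalso
    rw [hw] at hup hvp
    exact huv ((Set.mem_singleton_iff.1 hup).trans (Set.mem_singleton_iff.1 hvp).symm)
  · have hup' := hup
    rw [← hU] at hup'
    rcases hup' with h4 | h4
    · exact step p₁ h1 p₂ h2 hd hU h4
    · exact step p₂ h2 p₁ h1 hd.symm (by rw [Set.union_comm]; exact hU) h4

end Pool.Agent.W2411cw
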