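import Mathlib
import Pool.Agent.W_2411cw_h59.LamDef
import Pool.Agent.W_2411cw_h59.CwDef

/-! The binary tree of a clique-width expression. -/

set_option autoImplicit false

namespace Pool.Agent.W2411cw

/-- the sets of vertices of the subexpressions -/
def KTerm.sets {k : ℕ} {V : Type} : (t : KTerm k) → (t.V → V) → Set (Set V)
  | .pt _, g => {Set.range g}
  | .union s t, g => {Set.range g} ∪ s.sets (fun x => g (Sum.inl x)) ∪ t.sets (fun x => g (Sum.inr x))
  | .join _ _ _ t, g => t.sets g
  | .rel _ _ t, g => t.sets g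

theorem KTerm.V_nonempty {k : ℕ} (t : KTerm k) : Nonempty t.V := by
  induction t with
  | pt i => exact ⟨()⟩
  | union s t ihs _ => exact ihs.elim fun x => ⟨Sum.inl x⟩
  | join i j h t ih => exact ih
  | rel i j t ih => exact ih

private theorem tt_aux {k : ℕ} {V : Type} (t : KTerm k) : ∀ g : t.V → V, Function.Injective g →
    Set.range g ∈ t.sets g ∧ (∀ A ∈ t.sets g, A ⊆ Set.range g ∧ A.Nonempty) ∧
    (∀ A ∈ t.sets g, ∀ B ∈ t.sets g, A ⊆ B ∨ B ⊆ A ∨ Disjoint A B) ∧
    (∀ x, {g x} ∈ t.sets g) ∧
    ∀ A ∈ t.sets g, (∃ v, A = {v}) ∨ ∃ A₁ ∈ t.sets g, ∃ A₂ ∈ t.sets g,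
      Disjoint A₁ A₂ ∧ A₁ ∪ A₂ = A := by
  induction t with
  | pt i =>
    intro g hg
    have hr : Set.range g = {g ()} := by
      ext v
      constructor
      · rintro ⟨x, rfl⟩
        exact Set.mem_singleton_iff.2 (congrArg g (Subsingleton.elim (α := Unit) x ()))
      · intro hv
        exact ⟨(), (Set.mem_singleton_iff.1 hv).symm⟩
    have hs : (KTerm.pt i).sets g = {Set.range g} := rfl
    rw [hs]
    refine ⟨rfl, ?_, ?_, ?_, ?_⟩
    · intro A hA
      rw [Set.mem_singleton_iff.1 hA]
      exact ⟨subset_rfl, ⟨g (), (), rfl⟩⟩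
    · intro A hA B hB
      rw [Set.mem_singleton_iff.1 hA, Set.mem_singleton_iff.1 hB]
      exact Or.inl subset_rfl
    · intro x
      rw [hr]
      exact congrArg (fun y => ({g y} : Set V)) (Subsingleton.elim (α := Unit) x ())
    · intro A hA
      rw [Set.mem_singleton_iff.1 hA]
      exact Or.inl ⟨_, hr⟩
  | union s t ihs iht =>
    intro g hg
    have hgl : Function.Injective (fun x => g (Sum.inl x)) := fun x y h => Sum.inl_injective (hg h)
    have hgr : Function.Injective (fun x => g (Sum.inr x)) := fun x y h => Sum.inr_injective (hg h)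
    obtain ⟨l1, l2, l3, l4, l5⟩ := ihs _ hgl
    obtain ⟨r1, r2, r3, r4, r5⟩ := iht _ hgr
    have hs : (KTerm.union s t).sets g = {Set.range g} ∪ s.sets (fun x => g (Sum.inl x)) ∪
      t.sets (fun x => g (Sum.inr x)) := rfl
    have hd : Disjoint (Set.range fun x => g (Sum.inl x)) (Set.range fun x => g (Sum.inr x)) := by
      rw [Set.disjoint_left]
      rintro _ ⟨x, rfl⟩ ⟨y, hy⟩
      have := hg hy
      cases this
    have hu : (Set.range fun x => g (Sum.inl x)) ∪ (Set.range fun x => g (Sum.inr x)) =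
        Set.range g := by
      ext v
      constructor
      · rintro (⟨x, rfl⟩ | ⟨x, rfl⟩)
        · exact ⟨_, rfl⟩
        · exact ⟨_, rfl⟩
      · rintro ⟨x | x, rfl⟩
        · exact Or.inl ⟨x, rfl⟩
        · exact Or.inr ⟨x, rfl⟩
    have hmem : ∀ {A : Set V}, A ∈ (KTerm.union s t).sets g ↔ A = Set.range g ∨
        A ∈ s.sets (fun x => g (Sum.inl x)) ∨ A ∈ t.sets (fun x => g (Sum.inr x)) := by
      intro A
      rw [hs, Set.mem_union, Set.mem_union, Set.mem_singleton_iff, or_assoc]
    have hsub : ∀ A ∈ (KTerm.union s t).sets g, A ⊆ Set.range g ∧ A.Nonempty := by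
      intro A hA
      rcases hmem.1 hA with rfl | hA | hA
      · refine ⟨subset_rfl, ?_⟩
        rw [← hu]
        exact (l2 _ l1).2.inl
      · exact ⟨((l2 A hA).1.trans Set.subset_union_left).trans hu.subset, (l2 A hA).2⟩
      · exact ⟨((r2 A hA).1.trans Set.subset_union_right).trans hu.subset, (r2 A hA).2⟩
    refine ⟨hmem.2 (Or.inl rfl), hsub, ?_, ?_, ?_⟩
    · intro A hA B hB
      rcases hmem.1 hA with rfl | hA' | hA'
      · exact Or.inr (Or.inl (hsub B hB).1)
      · rcases hmem.1 hB with rfl | hB' | hB'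
        · exact Or.inl (hsub A hA).1
        · exact l3 A hA' B hB'
        · exact Or.inr (Or.inr (hd.mono (l2 A hA').1 (r2 B hB').1))
      · rcases hmem.1 hB with rfl | hB' | hB'
        · exact Or.inl (hsub A hA).1
        · exact Or.inr (Or.inr (hd.symm.mono (r2 A hA').1 (l2 B hB').1))
        · exact r3 A hA' B hB'
    · rintro (x | x)
      · exact hmem.2 (Or.inr (Or.inl (l4 x)))
      · exact hmem.2 (Or.inr (Or.inr (r4 x)))
    · intro A hA
      rcases hmem.1 hA with rfl | hA' | hA'
      · exact Or.inr ⟨_, hmem.2 (Or.inr (Or.inl l1)), _, hmem.2 (Or.inr (Or.inr r1)), hd, hu⟩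
      · rcases l5 A hA' with h | ⟨A₁, h1, A₂, h2, h3⟩
        · exact Or.inl h
        · exact Or.inr ⟨A₁, hmem.2 (Or.inr (Or.inl h1)), A₂, hmem.2 (Or.inr (Or.inl h2)), h3⟩
      · rcases r5 A hA' with h | ⟨A₁, h1, A₂, h2, h3⟩
        · exact Or.inl h
        · exact Or.inr ⟨A₁, hmem.2 (Or.inr (Or.inr h1)), A₂, hmem.2 (Or.inr (Or.inr h2)), h3⟩
  | join i j h t ih => exact fun g hg => ih g hg
  | rel i j t ih => exact fun g hg => ih g hg

private theorem tt_hom {k : ℕ} {V : Type} (adj : V → V → Prop) (t : KTerm k) :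
    ∀ (g : t.V → V), Function.Injective g → ∀ C : Fin k → Fin k → Prop,
    (∀ x y, x ≠ y → (adj (g x) (g y) ↔ t.Adj x y ∨ C (t.lab x) (t.lab y))) →
    (∀ x x', t.lab x = t.lab x' → ∀ y, y ∉ Set.range g → (adj (g x) y ↔ adj (g x') y)) →
    ∀ A ∈ t.sets g, ∃ lab : V → Fin k, ∀ x ∈ A, ∀ x' ∈ A, lab x = lab x' →
      ∀ y ∉ A, (adj x y ↔ adj x' y) := by
  have htop : ∀ (t : KTerm k) (g : t.V → V), Function.Injective g →
      (∀ x x', t.lab x = t.lab x' → ∀ y, y ∉ Set.range g → (adj (g x) y ↔ adj (g x') y)) →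
      ∃ lab : V → Fin k, ∀ x ∈ Set.range g, ∀ x' ∈ Set.range g, lab x = lab x' →
        ∀ y ∉ Set.range g, (adj x y ↔ adj x' y) := by
    intro t g hg h
    obtain ⟨x0⟩ := t.V_nonempty
    refine ⟨Function.extend g t.lab (fun _ => t.lab x0), ?_⟩
    rintro _ ⟨x, rfl⟩ _ ⟨x', rfl⟩ hl y hy
    rw [hg.extend_apply, hg.extend_apply] at hl
    exact h x x' hl y hy
  induction t with
  | pt i =>
    intro g hg C _ h2 A hA
    have hA' : A = Set.range g := hA
    subst hA'
    exact htop _ g hg h2
  | union s t ihs iht =>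
    intro g hg C h1 h2 A hA
    have hgl : Function.Injective (fun x => g (Sum.inl x)) := fun x y h => Sum.inl_injective (hg h)
    have hgr : Function.Injective (fun x => g (Sum.inr x)) := fun x y h => Sum.inr_injective (hg h)
    have hA' : (A = Set.range g ∨ A ∈ s.sets (fun x => g (Sum.inl x))) ∨
      A ∈ t.sets (fun x => g (Sum.inr x)) := hA
    rcases hA' with (rfl | hA') | hA'
    · exact htop _ g hg h2
    · refine ihs _ hgl C ?_ ?_ A hA'
      · intro x y hxy
        exact h1 (Sum.inl x) (Sum.inl y) (fun hh => hxy (Sum.inl_injective hh))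
      · intro x x' hl y hy
        by_cases hyg : y ∈ Set.range g
        · obtain ⟨z | z, rfl⟩ := hyg
          · exact absurd ⟨z, rfl⟩ hy
          · have e1 := h1 (Sum.inl x) (Sum.inr z) (fun hh => by cases hh)
            have e2 := h1 (Sum.inl x') (Sum.inr z) (fun hh => by cases hh)
            have e1' : adj (g (Sum.inl x)) (g (Sum.inr z)) ↔ False ∨ C (s.lab x) (t.lab z) := e1
            have e2' : adj (g (Sum.inl x')) (g (Sum.inr z)) ↔ False ∨ C (s.lab x') (t.lab z) := e2
            rw [e1', e2', hl]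
        · exact h2 (Sum.inl x) (Sum.inl x') hl y hyg
    · refine iht _ hgr C ?_ ?_ A hA'
      · intro x y hxy
        exact h1 (Sum.inr x) (Sum.inr y) (fun hh => hxy (Sum.inr_injective hh))
      · intro x x' hl y hy
        by_cases hyg : y ∈ Set.range g
        · obtain ⟨z | z, rfl⟩ := hyg
          · have e1 := h1 (Sum.inr x) (Sum.inl z) (fun hh => by cases hh)
            have e2 := h1 (Sum.inr x') (Sum.inl z) (fun hh => by cases hh)
            have e1' : adj (g (Sum.inr x)) (g (Sum.inl z)) ↔ False ∨ C (t.lab x) (s.lab z) := e1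
            have e2' : adj (g (Sum.inr x')) (g (Sum.inl z)) ↔ False ∨ C (t.lab x') (s.lab z) := e2
            rw [e1', e2', hl]
          · exact absurd ⟨z, rfl⟩ hy
        · exact h2 (Sum.inr x) (Sum.inr x') hl y hyg
  | join i j h t ih =>
    intro g hg C h1 h2 A hA
    refine ih g hg (fun a b => C a b ∨ (a = i ∧ b = j) ∨ (a = j ∧ b = i)) ?_ h2 A hA
    intro x y hxy
    have e := h1 x y hxy
    have e' : adj (g x) (g y) ↔ (t.Adj x y ∨ (t.lab x = i ∧ t.lab y = j) ∨
      (t.lab x = j ∧ t.lab y = i)) ∨ C (t.lab x) (t.lab y) := e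
    rw [e']
    tauto
  | rel i j t ih =>
    intro g hg C h1 h2 A hA
    refine ih g hg (fun a b => C (if a = i then j else a) (if b = i then j else b)) ?_ ?_ A hA
    · intro x y hxy
      exact h1 x y hxy
    · intro x x' hl y hy
      refine h2 x x' ?_ y hy
      change (if t.lab x = i then j else t.lab x) = (if t.lab x' = i then j else t.lab x')
      rw [hl]

/-- PROOF. Induction on `t` (for all injective `g`): (1) `range g` is in the family; (2) all
members are subsets of `range g` and nonempty (`t.V` is nonempty, by induction); (3) laminar; for the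
union the members in the two halves are disjoint since `g` is injective; (4) `{v}` is in the family
for `v ∈ range g`; (5) `kids`: `range g = range (g ∘ inl) ∪ range (g ∘ inr)` disjoint. For a bijection
`g`, `range g = univ`. -/
theorem sets_btree {k : ℕ} {V : Type} (t : KTerm k) (g : t.V → V) (hg : Function.Bijective g) :
    BTree V (t.sets g) := by
  obtain ⟨h1, h2, h3, h4, h5⟩ := tt_aux t g hg.1
  refine ⟨fun A hA => (h2 A hA).2, h3, ?_, h5, ?_⟩
  · intro v
    obtain ⟨x, rfl⟩ := hg.2 v
    exact h4 x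
  · rw [← hg.2.range_eq]
    exact h1

/-- PROOF. Induction on `t` of the statement: let `g : t.V → V` be injective and suppose
(i) there is `C : Fin k → Fin k → Prop` with `adj (g x) (g y) ↔ t.Adj x y ∨ C (lab x) (lab y)` for all
`x ≠ y` in `t.V`, and (ii) `adj (g x) y ↔ adj (g x') y` for `x, x'` with the same label and
`y ∉ range g`. Then every `A ∈ t.sets g` has a labelling as in `Hom`. For `A = range g` itself:
labelling `lab` transported by `g` (an arbitrary value outside), (ii). `pt`: only this set.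
`join i j t`: the hypothesis for `t` holds with `C' a b := C a b ∨ (a = i ∧ b = j) ∨ (a = j ∧ b = i)`.
`rel i j t`: with `C' a b := C (ρ a) (ρ b)`, `ρ a := if a = i then j else a`; (ii): equal labels in
`t` imply equal labels. `union s t`: for `s` and `g ∘ inl`: (i) same `C`; (ii) for
`y ∉ range (g ∘ inl)`: if `y ∉ range g` by (ii); if `y = g (inr z)` then
`adj (g (inl x)) (g (inr z)) ↔ C (lab x) (lab z)` by (i) (the union has no edge between them). In the
theorem take `C := False` and `range g = univ`. -/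
theorem sets_hom {k : ℕ} {V : Type} (adj : V → V → Prop) (t : KTerm k) (g : t.V → V)
    (hg : Function.Bijective g) (h : ∀ x y, adj (g x) (g y) ↔ t.Adj x y) :
    Hom V (t.sets g) adj k := by
  intro A hA
  refine tt_hom adj t g hg.1 (fun _ _ => False) ?_ ?_ A hA
  · intro x y _
    rw [h x y, or_false]
  · intro x x' _ y hy
    exact absurd (hg.2 y) hy

end Pool.Agent.W2411cw
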