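import Mathlib
import Pool.Agent.W_2411cw_h59.GWb
import Pool.Agent.W_2411cw_h59.TermT
import Pool.Agent.W_2411ls_h59.TwiAnc
import Pool.Agent.W_2411ls_h59.TreeB

/-! Bounded clique-width without large complete bipartite subgraphs implies bounded tree-width. -/

set_option autoImplicit false

namespace Pool.Agent.W2411cw

open Pool.Agent.W2411c4 Pool.Agent.W2411ls

/-- Gurski-Wanke. PROOF. If `G.V` is empty then `(ofM G).X` is empty and `TWI` is trivial
(`up := fun _ => ∅`). Otherwise take the expression `t` and `f`; `g := f.symm`, `F := t.sets g`,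
`adj := AdjM G` (symmetric: `Sym2.eq_swap`; irreflexive: `G.loopless`); `sets_btree`, `sets_hom`;
put `n := b + 2` (so `2 ≤ n`): `NoBi adj n`: sets `P, Q` with at least `n ≥ b` elements, completely
joined, give injections `Fin b → P`, `Fin b → Q` and a biclique. `twi_anc` with
`ι := {A : Set G.V // A ∈ F}` (finite), `anc A B := B ⊆ A`, `dep A := Nat.card G.V - A.ncard`
(ancestors of a nonempty set are comparable by laminarity), `β A := G.cV '' bag F adj n A`,
`bag_card` (`≤ 3 * (k * n) ≤ ... + 1`), `trace`, `edge_bag` (an edge of `(ofM G φ).G` is `cE e`, its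
ends `cV (fst e)`, `cV (snd e)` are adjacent). -/
theorem cw_twi {Ω : Type} [Preorder Ω] [Inhabited Ω] {k b : ℕ} {G : MGraph} (φ : G.V → Ω)
    (h : CliqueWidthLE k G) (hb : ¬ Biclique b G) :
    TWI (ofM G φ).G (ofM G φ).X ((3 * (k * (b + 2)) : ℕ) : ℕ∞) := by
  have hfin := G.finV
  rcases h with h | ⟨t, f, hf⟩
  · have hX : (ofM G φ).X = ∅ := by
      apply Finset.eq_empty_of_forall_notMem
      intro x hx
      obtain ⟨v, _⟩ := G.mem_cs.1 hx
      exact h.elim v
    intro X' hX' pt _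
    rw [hX] at hX'
    have hX0 : X' = ∅ := Finset.subset_empty.1 hX'
    refine ⟨fun _ => ∅, fun _ => 0, fun _ => by simp, fun p q hq => by simp at hq,
      fun p q hq => by simp at hq, fun e _ ha => ?_⟩
    rw [hX0] at ha
    exact absurd ha (Finset.notMem_empty _)
  have hadj : ∀ x y, AdjM G (f.symm x) (f.symm y) ↔ t.Adj x y := by
    intro x y
    rw [hf, Equiv.apply_symm_apply, Equiv.apply_symm_apply]
  have hF := sets_btree t f.symm f.symm.bijective
  have hH := sets_hom (AdjM G) t f.symm f.symm.bijective hadj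
  obtain ⟨F, hFe⟩ : ∃ F, F = t.sets f.symm := ⟨_, rfl⟩
  rw [← hFe] at hF hH
  have hsym : ∀ u v, AdjM G u v → AdjM G v u := by
    rintro u v ⟨e, he⟩
    exact ⟨e, by rw [he]; exact Sym2.eq_swap⟩
  have hn2 : 2 ≤ b + 2 := by omega
  have hNo : NoBi (AdjM G) (b + 2) := by
    intro P Q hP hQ
    by_contra hcon
    push Not at hcon
    apply hb
    have hinj : ∀ P : Set G.V, b + 2 ≤ P.ncard → ∃ a : Fin b → G.V, Function.Injective a ∧
        ∀ i, a i ∈ P := by
      intro P hP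
      have hc : Nat.card P = P.ncard := rfl
      have hcard : Fintype.card (Fin b) ≤ Nat.card P := by
        rw [Fintype.card_fin, hc]
        omega
      have hfP : Finite P := inferInstance
      have := Fintype.ofFinite P
      rw [Nat.card_eq_fintype_card] at hcard
      obtain ⟨g⟩ := Function.Embedding.nonempty_of_card_le hcard
      exact ⟨fun i => (g i).1, fun i j hij => g.injective (Subtype.ext hij), fun i => (g i).2⟩
    obtain ⟨a, ha1, ha2⟩ := hinj P hP
    obtain ⟨c, hc1, hc2⟩ := hinj Q hQ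
    exact ⟨a, c, ha1, hc1, fun i j => hcon _ (ha2 i) _ (hc2 j)⟩
  have hle : ∀ A : Set G.V, A.ncard ≤ Nat.card G.V := by
    intro A
    have h1 := Set.ncard_le_ncard (Set.subset_univ A) (Set.toFinite _)
    rwa [Set.ncard_univ] at h1
  refine twi_anc (ι := {A : Set G.V // A ∈ F}) (fun A B => B.1 ⊆ A.1)
    (fun A => Nat.card G.V - A.1.ncard) (fun i => subset_rfl) (fun i j l h1 h2 => h2.trans h1)
    ?_ ?_ (fun A => G.cV '' bag F (AdjM G) (b + 2) A.1) ?_ ?_ ?_ ?_
  · intro i i' j h1 h2 h3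
    rcases hF.lam i.1 i.2 i'.1 i'.2 with h4 | h4 | h4
    · have h5 := hle i.1
      have h6 := hle i'.1
      have h7 : i'.1.ncard ≤ i.1.ncard := by
        have h3' : Nat.card G.V - i.1.ncard ≤ Nat.card G.V - i'.1.ncard := h3
        omega
      exact (Set.eq_of_subset_of_ncard_le h4 h7 (Set.toFinite _)).symm.subset
    · exact h4
    · obtain ⟨x, hx⟩ := hF.ne j.1 j.2
      exact absurd (h2 hx) (Set.disjoint_left.1 h4 (h1 hx))
  · intro i j h1
    have h5 := hle i.1
    have h6 := hle j.1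
    have h7 := Set.ncard_le_ncard h1 (Set.toFinite _)
    refine ⟨?_, fun h8 => ?_⟩
    · show Nat.card G.V - i.1.ncard ≤ Nat.card G.V - j.1.ncard
      omega
    · have h8' : Nat.card G.V - i.1.ncard = Nat.card G.V - j.1.ncard := h8
      have h9 : i.1.ncard ≤ j.1.ncard := by omega
      exact Subtype.ext (Set.eq_of_subset_of_ncard_le h1 h9 (Set.toFinite _)).symm
  · intro x hx
    obtain ⟨v, _, rfl⟩ := G.mem_cs.1 hx
    have hmem : ∀ A : Set G.V, G.cV v ∈ G.cV '' bag F (AdjM G) (b + 2) A ↔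
        v ∈ bag F (AdjM G) (b + 2) A := by
      intro A
      constructor
      · rintro ⟨w, hw, h⟩
        rwa [← G.cV_inj h]
      · exact fun h => ⟨v, h, rfl⟩
    obtain ⟨s, hs, h1, h2, h3⟩ := trace hF hsym hNo hn2 v
    refine ⟨⟨s, hs⟩, (hmem s).2 h1, fun j hj => h2 j.1 j.2 ((hmem _).1 hj), ?_⟩
    intro i j hi hij hj
    exact (hmem _).2 (h3 i.1 i.2 j.1 j.2 ((hmem _).1 hj) hi hij)
  · intro e he' _ _
    obtain ⟨e', _, rfl⟩ := (G.mem_E ∅ (fun v => (⟨0, φ v⟩ : Lb Ω)) ⟨0, default⟩).1 he'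
    obtain ⟨A, hA, h1, h2⟩ := edge_bag hF hsym hn2 (G.fst_ne_snd e') ⟨e', G.ends_fs e'⟩
    refine ⟨⟨A, hA⟩, ?_⟩
    change (G.toGr ∅ (fun v => (⟨0, φ v⟩ : Lb Ω)) ⟨0, default⟩).a (G.cE e') ∈
        G.cV '' bag F (AdjM G) (b + 2) A ∧
      (G.toGr ∅ (fun v => (⟨0, φ v⟩ : Lb Ω)) ⟨0, default⟩).b (G.cE e') ∈ G.cV '' bag F (AdjM G) (b + 2) A
    rw [G.a_cE, G.b_cE]
    exact ⟨⟨_, h1, rfl⟩, ⟨_, h2, rfl⟩⟩
  · intro i
    exact (Set.toFinite _).image _
  · intro i
    rw [Set.ncard_image_of_injective _ (fun _ _ h => G.cV_inj h)]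
    exact (bag_card hF hH hNo i.2).trans (Nat.le_succ _)

end Pool.Agent.W2411cw
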