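import Mathlib
import Pool.Agent.W_2411c4_h59.Defs

/-! The complete graph with parallel edges contains all small graphs. -/

set_option autoImplicit false

namespace Pool.Agent.W2411cw

open Pool.Agent.W2411c4

/-- `t` vertices, `t` parallel edges between any two of them -/
def KK (t : ℕ) : MGraph where
  V := Fin t
  E := {p : Fin t × Fin t // p.1 < p.2} × Fin t
  finV := inferInstance
  finE := inferInstance
  ends e := s(e.1.1.1, e.1.1.2)
  loopless e := by
    rw [Sym2.mk_isDiag_iff]
    exact e.1.2.ne

/-- every small graph is strongly immersed in every graph in which `KK t` is strongly immersed -/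
theorem si_of_KK {t : ℕ} {H G : MGraph} (hV : Nat.card H.V ≤ t) (hE : Nat.card H.E ≤ t)
    (h : Nonempty (StrongImmersion (KK t) G)) : Nonempty (StrongImmersion H G) := by
  classical
  obtain ⟨I⟩ := h
  have := H.finV
  have := H.finE
  obtain ⟨a, ha⟩ : ∃ a : H.V → (KK t).V, Function.Injective a :=
    ⟨_, (Fin.castLE_injective hV).comp (Finite.equivFin H.V).injective⟩
  obtain ⟨b, hb⟩ : ∃ b : H.E → Fin t, Function.Injective b :=
    ⟨_, (Fin.castLE_injective hE).comp (Finite.equivFin H.E).injective⟩
  have hc : ∀ e : H.E, ∃ c : (KK t).E, c.2 = b e ∧ (KK t).ends c = (H.ends e).map a := by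
    intro e
    have hl := H.loopless e
    revert hl
    induction H.ends e with
    | _ u v =>
      intro hl
      rw [Sym2.mk_isDiag_iff] at hl
      rcases lt_or_gt_of_ne (α := Fin t) (fun h => hl (ha h) : a u ≠ a v) with h | h
      · exact ⟨(⟨(a u, a v), h⟩, b e), rfl, rfl⟩
      · exact ⟨(⟨(a v, a u), h⟩, b e), rfl, Sym2.eq_swap⟩
  choose c hc2 hc1 using hc
  have hci : Function.Injective c := fun e f h => hb (by rw [← hc2, ← hc2, h])
  exact ⟨{
    η := fun v => I.η (a v)
    inj := I.inj.comp ha
    src := fun e => I.src (c e)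
    dst := fun e => I.dst (c e)
    path := fun e => I.path (c e)
    ends_eq := fun e => by rw [I.ends_eq, hc1, Sym2.map_map]; rfl
    isPath := fun e => I.isPath _
    disj := fun e f h => I.disj _ _ fun h' => h (hci h')
    strong := fun e v h => I.strong _ _ fun h' => by
      rw [hc1, Sym2.mem_map] at h'
      obtain ⟨w, hw, hw'⟩ := h'
      exact h ((ha hw') ▸ hw) }⟩

end Pool.Agent.W2411cw
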