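import Mathlib
import Pool.Agent.W_2411cw_h59.CwTwi
import Pool.Agent.W_2411cw_h59.BicK
import Pool.Agent.W_2411ls_h59.Main

/-! Classes in which the tree-width is bounded by a function of the largest complete bipartite
subgraph; graphs of bounded clique-width. -/

set_option autoImplicit false

open Set

namespace Pool.Agent.W2411cw

open Pool.Agent.W2411c4 Pool.Agent.W2411ls

theorem main_twi (g : ℕ → ℕ) (G : ℕ → MGraph)
    (hG : ∀ n b, ¬ Biclique b (G n) →
      TWI (ofM (G n) fun _ => ()).G (ofM (G n) fun _ => ()).X (g b : ℕ∞)) :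
    ∃ i j, i < j ∧ Nonempty (StrongImmersion (G i) (G j)) := by
  by_contra hcon
  push Not at hcon
  have hno : ∀ i j, i < j → ¬ CR (ofM (G i) fun _ => ()) (ofM (G j) fun _ => ()) :=
    fun i j hij h => (hcon i j hij).false (si_of_cr h).choose
  let t : ℕ := (ofM (G 0) fun _ => ()).X.card + (ofM (G 0) fun _ => ()).G.E.card + 2
  have hlab : ∀ n, ∀ x ∈ (ofM (G n) fun _ => ()).X, ((ofM (G n) fun _ => ()).G.lab x).v = 0 :=
    fun n x hx => Nat.lt_one_iff.1 (ofM_lab _ _ x hx)
  have hfree : ∀ n, ¬ HasK t (ofM (G (n + 1)) fun _ => ()).G := by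
    intro n h
    exact hno 0 (n + 1) (by omega) (cr_of_hasK (ofM_cls _ _) (ofM_cls _ _)
      (fun x hx y hy => ⟨(hlab 0 x hx).trans (hlab (n + 1) y hy).symm, le_rfl⟩)
      (t := t) (by omega) (by omega) (by omega) h)
  obtain ⟨i, j, hij, I, _⟩ := main_lab (thinOK_nat (g (t ^ 3 + t))) t (fun n => G (n + 1))
    (fun _ _ => ()) (fun n => hG _ _ fun h => hfree n (hasK_of_biclique _ h)) hfree
  exact (hcon (i + 1) (j + 1) (by omega)).false I

/-- graphs whose tree-width is bounded by a function of the largest complete bipartite subgraph -/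
theorem main_bic (g : ℕ → ℕ) (G : ℕ → MGraph)
    (hG : ∀ n b, ¬ Biclique b (G n) → TreeWidthLE (G n) (g b)) :
    ∃ i j, i < j ∧ Nonempty (StrongImmersion (G i) (G j)) :=
  main_twi g G fun n b h => ofM_twi _ (hG n b h)

/-- graphs of bounded clique-width -/
theorem main_cw (k : ℕ) (G : ℕ → MGraph) (hG : ∀ n, CliqueWidthLE k (G n)) :
    ∃ i j, i < j ∧ Nonempty (StrongImmersion (G i) (G j)) :=
  main_twi (fun b => 3 * (k * (b + 2))) G fun n _ h => cw_twi _ (hG n) h

end Pool.Agent.W2411cw
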