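import Mathlib
import Pool.Agent.W_2411cw_h59.KK
import Pool.Agent.W_2411cw_h59.Main2

/-! Classes in which the tree-width is bounded by a function of the largest `t` such that `KK t` is
strongly immersed. -/

set_option autoImplicit false

namespace Pool.Agent.W2411cw

open Pool.Agent.W2411c4 Pool.Agent.W2411ls

theorem main_KK (f : ℕ → ℕ) (G : ℕ → MGraph)
    (hG : ∀ n t, ¬ Nonempty (StrongImmersion (KK t) (G n)) → TreeWidthLE (G n) (f t)) :
    ∃ i j, i < j ∧ Nonempty (StrongImmersion (G i) (G j)) := by
  by_contra hcon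
  have hno : ∀ i j, i < j → ¬ Nonempty (StrongImmersion (G i) (G j)) := fun i j hij h =>
    hcon ⟨i, j, hij, h⟩
  obtain ⟨i, j, hij, h⟩ := main (f (Nat.card (G 0).V + Nat.card (G 0).E)) (fun n => G (n + 1))
    fun n => hG _ _ fun h => hno 0 (n + 1) (by omega) (si_of_KK (by omega) (by omega) h)
  exact hno (i + 1) (j + 1) (by omega) h

end Pool.Agent.W2411cw
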